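import Pool.Agent.helper5.CB.Core
import Pool.Agent.helper5.CB.Asym

/-!
# Correlation bounds beyond degree `log n` (MP_bd3c72_lc, partial)

`hard k M B x = ∑_{j<M} ∏_{i<k} ∑_{b<B} x_{(jk+i)B+b}` (sum modulo 2). With `k = ⌊(1-δ) log₂ n⌋ + 1`,
`B = ⌊n^(δ-2c)⌋`, `M = ⌊n/(kB)⌋`, `c = (δ(1-δ)-τ)/10`, it has correlation at most `2^(-n^(c/2))` with every
function `Φ(|x_{P_1}|, …, |x_{P_r}|, q_1(x), …, q_r(x))`, where the `P_j` partition the variables into `r ≤ n^(c/2)`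
blocks and each `F₂`-polynomial `q_a` has at most `n^(τ log₂ n)` monomials of degree greater than `(1-δ) log₂ n`.
-/

set_option autoImplicit false

open Filter

namespace Pool.Agent.Results.MP_bd3c72_lc.SparseTop

open Pool.Agent.helper5.CB

theorem result (δ τ c : ℝ) (hδ : 0 < δ) (hδ2 : δ ≤ 1 / 2) (hτ : 0 ≤ τ) (hτδ : τ < δ * (1 - δ))
    (hc : c = (δ * (1 - δ) - τ) / 10) :
    ∀ᶠ n : ℕ in atTop, ∀ r : ℕ, (r : ℝ) ≤ (n : ℝ) ^ (c / 2) →
      ∀ (π : Fin n → Fin r) (𝒬 : Fin r → Finset (Finset (Fin n)))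
        (Φ : (Fin r → ℕ) → (Fin r → ZMod 2) → ZMod 2),
        (∀ a, (((𝒬 a).filter (fun S => (1 - δ) * Real.logb 2 n < (S.card : ℝ))).card : ℝ)
          ≤ (n : ℝ) ^ (τ * Real.logb 2 n)) →
        |(∑ x : Fin n → ZMod 2,
          sg (hard (kk δ n) (MM δ c n) (BB δ c n) x + Φ (wt π x) (fun a => polyFun (𝒬 a) x))) / 2 ^ n|
          ≤ (2 : ℝ) ^ (-(n : ℝ) ^ (c / 2)) := by
  filter_upwards [params δ τ c hδ hδ2 hτ hτδ hc, eventually_ge_atTop 1] with n hn hn1 r hr π 𝒬 Φ h𝒬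
  classical
  have hr1 : 1 ≤ r := by
    have i : Fin n := ⟨0, hn1⟩
    exact Nat.lt_of_le_of_lt (Nat.zero_le _) (π i).isLt
  set s : ℕ := Finset.univ.sup (fun a => ((𝒬 a).filter (fun S => (1 - δ) * Real.logb 2 n < (S.card : ℝ))).card)
    with hs
  have hs1 : (s : ℝ) ≤ (n : ℝ) ^ (τ * Real.logb 2 n) := by
    have hne : (Finset.univ : Finset (Fin r)).Nonempty := ⟨⟨0, hr1⟩, Finset.mem_univ _⟩
    obtain ⟨a, _, ha⟩ := Finset.exists_mem_eq_sup _ hne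
      (fun a => ((𝒬 a).filter (fun S => (1 - δ) * Real.logb 2 n < (S.card : ℝ))).card)
    rw [hs, ha]
    exact h𝒬 a
  obtain ⟨R, Λ, D, hk, hkD, hnn, hB, hR, hΛ, hcount, hfin⟩ := hn r s hr1 hr hs1
  have hcore := core (n := n) (k := kk δ n) (M := MM δ c n) (B := BB δ c n) (r := r) (R := R) (Λ := Λ) (D := D)
    (s := s) hk hkD hnn hB hr1 hR hΛ hcount π 𝒬 (by
      intro a
      refine le_trans (Finset.card_le_card ?_) (Finset.le_sup (f := fun a =>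
        ((𝒬 a).filter (fun S => (1 - δ) * Real.logb 2 n < (S.card : ℝ))).card) (Finset.mem_univ a))
      intro S hS
      rw [Finset.mem_filter] at hS ⊢
      refine ⟨hS.1, ?_⟩
      have h1 : (1 - δ) * Real.logb 2 n < (⌊(1 - δ) * Real.logb 2 n⌋₊ : ℝ) + 1 := Nat.lt_floor_add_one _
      have h2 : ((kk δ n : ℕ) : ℝ) ≤ (S.card : ℝ) := by exact_mod_cast hS.2
      have h3 : ((kk δ n : ℕ) : ℝ) = (⌊(1 - δ) * Real.logb 2 n⌋₊ : ℝ) + 1 := by
        unfold kk; push_cast; ring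
      rw [h3] at h2
      exact lt_of_lt_of_le h1 h2) Φ
  have h2n : (0 : ℝ) < 2 ^ n := by positivity
  rw [abs_div, abs_of_pos h2n, div_le_iff₀ h2n]
  refine le_trans hcore ?_
  rw [mul_comm]
  exact mul_le_mul_of_nonneg_right hfin h2n.le

end Pool.Agent.Results.MP_bd3c72_lc.SparseTop
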