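import Pool.Agent.helper91.XM.Main
import Pool.Agent.helper91.XM.Mach
import Pool.Agent.helper91.XM.NP

/-!
# MP_bd3c72_lc, Q1: explicit functions with small correlation against `F_2`-polynomials

The XOR `xorMaj k n` of `k` majorities is explicit, and its correlation with every `F_2`-polynomial of
degree at most `log_2 n`, even of degree at most `n ^ δ`, is at most `n ^ (-c)` for all large `n`, whenever
`c < k (1/2 - δ)`.  With `k = 3`, `c = 1`, `δ = 0` this is the answer to Q1: the XOR of three majorities
has correlation at most `1 / n` with all polynomials of degree at most `log_2 n`.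
-/

set_option autoImplicit false

namespace Pool.Agent.Results.MP_bd3c72_lc.XorMajorities

open Pool.Agent.helper91.XM

theorem result (k : ℕ) (hk : 1 ≤ k) :
    Nonempty (Turing.TM2ComputableInPolyTime (id : List Bool → List Bool)
      Computability.encodeBool (dec (xorMaj k))) ∧
    InNP {w | dec (xorMaj k) w = true} ∧
    ∀ c δ : ℝ, 0 ≤ δ → c < k * (1 / 2 - δ) →
      ∃ N : ℕ, ∀ n : ℕ, N ≤ n → ∀ p : MvPolynomial (Fin n) (ZMod 2),
        (p.totalDegree : ℝ) ≤ max (Real.logb 2 n) ((n : ℝ) ^ δ) →
        cor (xorMaj k n) p ≤ (n : ℝ) ^ (-c) := by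
  have h := xorMaj_polyTime hk
  exact ⟨h, inNP_of_polyTime _ h, fun c δ hδ hc => main_asy hk c δ hδ hc⟩

end Pool.Agent.Results.MP_bd3c72_lc.XorMajorities
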